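import Pool.Agent.Run7.h601.ZN.Stm

set_option autoImplicit false

namespace Pool.Agent.Run7.h629.ZN

open Finset Pool.Agent.Run7.h601.ZN

theorem kk_self {k : ℕ} (l : Fin k → ℤ) (hl : StrictMono l) : kk l l = 1 := by
  unfold kk
  rw [Finset.sum_eq_single (1 : Equiv.Perm (Fin k))]
  · simp
  · intro τ _ hτ
    rw [if_neg]
    intro h
    apply hτ
    ext i
    have := hl.injective (h i)
    simp [← this]
  · intro h
    exact absurd (mem_univ _) h

theorem t_NRM : S_NRM := by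
  intro hI hO n k l hm h0 hs
  have e1 : ∀ σ : Equiv.Perm (Fin n), vch l σ ^ 2 =
      ∑ τ : Equiv.Perm (Fin k), ∑ τ' : Equiv.Perm (Fin k),
        (Equiv.Perm.sign τ : ℤ) * (Equiv.Perm.sign τ' : ℤ) *
          (fixW (fun i => l i - ((τ i : ℕ) : ℤ)) σ * fixW (fun i => l i - ((τ' i : ℕ) : ℤ)) σ) := by
    intro σ
    unfold vch
    rw [sq, Finset.sum_mul_sum]
    refine Finset.sum_congr rfl fun τ _ => Finset.sum_congr rfl fun τ' _ => ?_
    ring
  simp_rw [e1]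
  rw [Finset.sum_comm]
  have e2 : ∀ τ : Equiv.Perm (Fin k), ∑ σ : Equiv.Perm (Fin n), ∑ τ' : Equiv.Perm (Fin k),
        (Equiv.Perm.sign τ : ℤ) * (Equiv.Perm.sign τ' : ℤ) *
          (fixW (fun i => l i - ((τ i : ℕ) : ℤ)) σ * fixW (fun i => l i - ((τ' i : ℕ) : ℤ)) σ) =
      (n.factorial : ℤ) * ∑ τ' : Equiv.Perm (Fin k),
        (Equiv.Perm.sign τ : ℤ) * (Equiv.Perm.sign τ' : ℤ) *
          mat n (fun i => l i - ((τ i : ℕ) : ℤ)) (fun i => l i - ((τ' i : ℕ) : ℤ)) := by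
    intro τ
    rw [Finset.sum_comm, Finset.mul_sum]
    refine Finset.sum_congr rfl fun τ' _ => ?_
    rw [← Finset.mul_sum, hI]
    ring
  simp_rw [e2]
  rw [← Finset.mul_sum, hO n k l l hs hs]
  unfold kp
  rw [if_pos ⟨h0, h0⟩, kk_self l hm, mul_one]

end Pool.Agent.Run7.h629.ZN
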